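import Mathlib

/-!
# A uniquely `{1,2,3}`-weight colourable graph

The triangle `K_3` has, up to isomorphism, exactly one edge `{1,2,3}`-weighting that properly
colours its vertices by sums, and the same holds for every disjoint union of `k ≥ 1` triangles.
-/

namespace Pool.Agent.Results.MP_9e9a14_co.Triangles

open scoped Classical in
/-- The induced vertex sum `σ_w(v) = ∑_{e ∋ v} w(e)`. -/
noncomputable def vertexSum {V : Type} [Fintype V] (G : SimpleGraph V) (w : G.edgeSet → ℝ)
    (v : V) : ℝ :=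
  ∑ e : G.edgeSet, if v ∈ (e : Sym2 V) then w e else 0

/-- `w` is an edge `S`-weighting of `G` that properly colours the vertices by sums. -/
def ProperWeighting {V : Type} [Fintype V] (G : SimpleGraph V) (S : Set ℝ)
    (w : G.edgeSet → ℝ) : Prop :=
  (∀ e, w e ∈ S) ∧ ∀ u v, G.Adj u v → vertexSum G w u ≠ vertexSum G w v

/-- Two edge weightings of `G` are isomorphic: `w'(φ(e)) = w(e)` for all edges `e`, for some
automorphism `φ` of `G`. -/
def IsoWeightings {V : Type} (G : SimpleGraph V) (w w' : G.edgeSet → ℝ) : Prop :=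
  ∃ φ : G ≃g G, ∀ e : G.edgeSet, w' (φ.mapEdgeSet e) = w e

/-- `G` is uniquely `S`-weight colourable. -/
def UniquelyWeightColourable {V : Type} [Fintype V] (G : SimpleGraph V) (S : Set ℝ) : Prop :=
  (∃ w, ProperWeighting G S w) ∧
    ∀ w w', ProperWeighting G S w → ProperWeighting G S w' → IsoWeightings G w w'

/-- The disjoint union of `k` triangles. -/
def triangles (k : ℕ) : SimpleGraph (Fin k × Fin 3) where
  Adj u v := u.1 = v.1 ∧ u.2 ≠ v.2
  symm := ⟨fun _ _ h => ⟨h.1.symm, h.2.symm⟩⟩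
  loopless := ⟨fun _ h => h.2 rfl⟩

section

variable {k : ℕ}

/-- The edge of the triangle number `i` that is opposite to its vertex number `a`. -/
def opp (i : Fin k) (a : Fin 3) : (triangles k).edgeSet :=
  ⟨s((i, a + 1), (i, a + 2)), by
    rw [SimpleGraph.mem_edgeSet]
    refine ⟨rfl, ?_⟩
    show a + 1 ≠ a + 2
    revert a
    decide⟩

theorem opp_surj (e : (triangles k).edgeSet) : ∃ p : Fin k × Fin 3, opp p.1 p.2 = e := by
  obtain ⟨e, he⟩ := e
  induction e using Sym2.ind with
  | _ u v =>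
    obtain ⟨i, a⟩ := u
    obtain ⟨j, b⟩ := v
    rw [SimpleGraph.mem_edgeSet] at he
    obtain ⟨h1, h2⟩ := he
    simp only at h1 h2
    subst h1
    have key : ∀ a b : Fin 3, a ≠ b → ∃ c : Fin 3,
        (c + 1 = a ∧ c + 2 = b) ∨ (c + 1 = b ∧ c + 2 = a) := by decide
    obtain ⟨c, hc | hc⟩ := key a b h2
    · refine ⟨(i, c), Subtype.ext ?_⟩
      show s((i, c + 1), (i, c + 2)) = s((i, a), (i, b))
      rw [hc.1, hc.2]
    · refine ⟨(i, c), Subtype.ext ?_⟩
      show s((i, c + 1), (i, c + 2)) = s((i, a), (i, b))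
      rw [hc.1, hc.2, Sym2.eq_swap]

theorem opp_inj : Function.Injective fun p : Fin k × Fin 3 => opp p.1 p.2 := by
  rintro ⟨i, a⟩ ⟨j, b⟩ h
  have h' : s((i, a + 1), (i, a + 2)) = s((j, b + 1), (j, b + 2)) := congrArg Subtype.val h
  rw [Sym2.eq_iff] at h'
  have key : ∀ a b : Fin 3, (a + 1 = b + 1 ∧ a + 2 = b + 2) ∨ (a + 1 = b + 2 ∧ a + 2 = b + 1) →
      a = b := by decide
  rcases h' with ⟨h1, h2⟩ | ⟨h1, h2⟩
  · rw [Prod.mk.injEq] at h1 h2
    rw [h1.1, key a b (Or.inl ⟨h1.2, h2.2⟩)]
  · rw [Prod.mk.injEq] at h1 h2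
    rw [h1.1, key a b (Or.inr ⟨h1.2, h2.2⟩)]

/-- The edges of the graph are numbered by pairs (triangle, opposite vertex). -/
noncomputable def edgeEquiv : Fin k × Fin 3 ≃ (triangles k).edgeSet :=
  Equiv.ofBijective _ ⟨opp_inj, opp_surj⟩

theorem edgeEquiv_apply (p : Fin k × Fin 3) : edgeEquiv p = opp p.1 p.2 := rfl

theorem mem_opp (i j : Fin k) (a b : Fin 3) :
    (i, a) ∈ ((opp j b : (triangles k).edgeSet) : Sym2 (Fin k × Fin 3)) ↔ i = j ∧ a ≠ b := by
  show (i, a) ∈ s((j, b + 1), (j, b + 2)) ↔ _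
  rw [Sym2.mem_iff, Prod.mk.injEq, Prod.mk.injEq]
  have key : ∀ a b : Fin 3, (a = b + 1 ∨ a = b + 2) ↔ a ≠ b := by decide
  rw [← key]
  tauto

theorem vertexSum_eq (w : (triangles k).edgeSet → ℝ) (i : Fin k) (a : Fin 3) :
    vertexSum (triangles k) w (i, a) = w (opp i (a + 1)) + w (opp i (a + 2)) := by
  classical
  unfold vertexSum
  rw [← edgeEquiv.sum_comp, Fintype.sum_prod_type]
  simp only [edgeEquiv_apply, mem_opp]
  rw [Finset.sum_eq_single i]
  · have : ∀ a : Fin 3, (Finset.univ : Finset (Fin 3)) = {a, a + 1, a + 2} := by decide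
    rw [this a, Finset.sum_insert, Finset.sum_insert, Finset.sum_singleton]
    · have k1 : ∀ a : Fin 3, a ≠ a + 1 := by decide
      have k2 : ∀ a : Fin 3, a ≠ a + 2 := by decide
      simp [k1 a, k2 a]
    · revert a
      decide
    · revert a
      decide
  · intro j _ hj
    apply Finset.sum_eq_zero
    intro b _
    rw [if_neg]
    rintro ⟨h, -⟩
    exact hj h.symm
  · intro h
    exact absurd (Finset.mem_univ i) h

/-- A weighting colours the vertices properly exactly if it is injective on each triangle. -/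
theorem proper_iff (w : (triangles k).edgeSet → ℝ) :
    (∀ u v, (triangles k).Adj u v →
      vertexSum (triangles k) w u ≠ vertexSum (triangles k) w v) ↔
    ∀ i : Fin k, Function.Injective fun a : Fin 3 => w (opp i a) := by
  constructor
  · intro h i a b hab
    by_contra hne
    have := h (i, a) (i, b) ⟨rfl, hne⟩
    rw [vertexSum_eq, vertexSum_eq] at this
    have key : ∀ a b : Fin 3, a ≠ b → (a + 1 = b ∧ a + 2 = b + 1 ∧ b + 2 = a) ∨
        (b + 1 = a ∧ b + 2 = a + 1 ∧ a + 2 = b) := by decide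
    rcases key a b hne with ⟨h1, h2, h3⟩ | ⟨h1, h2, h3⟩
    · apply this
      rw [h1, h2, h3]
      simp only at hab
      rw [hab]
      ring
    · apply this
      rw [h1, h2, h3]
      simp only at hab
      rw [hab]
      ring
  · rintro h ⟨i, a⟩ ⟨j, b⟩ ⟨hij, hab⟩ heq
    simp only at hij hab
    subst hij
    rw [vertexSum_eq, vertexSum_eq] at heq
    have key : ∀ a b : Fin 3, a ≠ b → (a + 1 = b ∧ a + 2 = b + 1 ∧ b + 2 = a) ∨
        (b + 1 = a ∧ b + 2 = a + 1 ∧ a + 2 = b) := by decide
    rcases key a b hab with ⟨h1, h2, h3⟩ | ⟨h1, h2, h3⟩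
    · rw [h1, h2, h3] at heq
      exact hab (h i (by simp only; linarith))
    · rw [h1, h2, h3] at heq
      exact hab (h i (by simp only; linarith))

/-- The automorphism that acts on the triangle number `i` by the permutation `π i`. -/
def autOf (π : Fin k → Equiv.Perm (Fin 3)) : triangles k ≃g triangles k where
  toFun p := (p.1, π p.1 p.2)
  invFun p := (p.1, (π p.1).symm p.2)
  left_inv p := by simp
  right_inv p := by simp
  map_rel_iff' := by
    rintro ⟨i, a⟩ ⟨j, b⟩
    show (i = j ∧ π i a ≠ π j b) ↔ (i = j ∧ a ≠ b)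
    constructor
    · rintro ⟨rfl, h⟩
      exact ⟨rfl, fun h' => h (by rw [h'])⟩
    · rintro ⟨rfl, h⟩
      exact ⟨rfl, fun h' => h ((π i).injective h')⟩

theorem autOf_opp (π : Fin k → Equiv.Perm (Fin 3)) (i : Fin k) (a : Fin 3) :
    (autOf π).mapEdgeSet (opp i a) = opp i (π i a) := by
  obtain ⟨⟨j, b⟩, hb⟩ := opp_surj ((autOf π).mapEdgeSet (opp i a))
  rw [← hb]
  simp only
  have hval : ((opp j b : (triangles k).edgeSet) : Sym2 (Fin k × Fin 3)) =
      s((i, π i (a + 1)), (i, π i (a + 2))) := by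
    rw [hb]
    rfl
  have m1 : (i, π i (a + 1)) ∈ ((opp j b : (triangles k).edgeSet) : Sym2 (Fin k × Fin 3)) := by
    rw [hval]
    exact Sym2.mem_mk_left _ _
  have m2 : (i, π i (a + 2)) ∈ ((opp j b : (triangles k).edgeSet) : Sym2 (Fin k × Fin 3)) := by
    rw [hval]
    exact Sym2.mem_mk_right _ _
  rw [mem_opp] at m1 m2
  obtain ⟨h1, h2⟩ := m1
  obtain ⟨-, h3⟩ := m2
  subst h1
  have : b = π i a := by
    obtain ⟨c, rfl⟩ := (π i).surjective b
    have h2' : a + 1 ≠ c := fun h => h2 (by rw [h])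
    have h3' : a + 2 ≠ c := fun h => h3 (by rw [h])
    have key : ∀ a c : Fin 3, a + 1 ≠ c → a + 2 ≠ c → c = a := by decide
    rw [key a c h2' h3']
  rw [this]

end

/-- An injective map from `Fin 3` to `{1, 2, 3}` hits every element. -/
theorem hit (f : Fin 3 → ℝ) (hf : ∀ a, f a ∈ ({1, 2, 3} : Set ℝ)) (hinj : Function.Injective f)
    {x : ℝ} (hx : x ∈ ({1, 2, 3} : Set ℝ)) : ∃ a, f a = x := by
  classical
  have h1 : Finset.image f Finset.univ ⊆ ({1, 2, 3} : Finset ℝ) := by
    intro y hy
    rw [Finset.mem_image] at hy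
    obtain ⟨a, -, rfl⟩ := hy
    have := hf a
    simpa using this
  have h2 : Finset.image f Finset.univ = ({1, 2, 3} : Finset ℝ) := by
    apply Finset.eq_of_subset_of_card_le h1
    rw [Finset.card_image_of_injective _ hinj, Finset.card_univ, Fintype.card_fin]
    exact (Finset.card_insert_le _ _).trans
      (Nat.succ_le_succ ((Finset.card_insert_le _ _).trans (by simp)))
  have h3 : x ∈ Finset.image f Finset.univ := by
    rw [h2]
    simpa using hx
  rw [Finset.mem_image] at h3
  obtain ⟨a, -, ha⟩ := h3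
  exact ⟨a, ha⟩

theorem triangles_unique (k : ℕ) :
    UniquelyWeightColourable (triangles k) ({1, 2, 3} : Set ℝ) := by
  constructor
  · refine ⟨fun e => ((edgeEquiv.symm e).2.val : ℝ) + 1, ?_, ?_⟩
    · intro e
      show (((edgeEquiv.symm e).2.val : ℝ) + 1) ∈ ({1, 2, 3} : Set ℝ)
      generalize (edgeEquiv.symm e).2 = a
      fin_cases a
      · left
        norm_num
      · right
        left
        norm_num
      · right
        right
        norm_num
    · rw [proper_iff]
      intro i a b hab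
      simp only at hab
      have h1 : ∀ c : Fin 3, (edgeEquiv.symm (opp i c : (triangles k).edgeSet)) = (i, c) := by
        intro c
        rw [Equiv.symm_apply_eq]
        rfl
      rw [h1, h1] at hab
      apply Fin.ext
      have : ((a.val : ℕ) : ℝ) = (b.val : ℝ) := by linarith
      exact_mod_cast this
  · intro w w' hw hw'
    have hi := (proper_iff w).1 hw.2
    have hi' := (proper_iff w').1 hw'.2
    -- on each triangle, the permutation that matches the weights
    have hex : ∀ (i : Fin k) (a : Fin 3), ∃ b : Fin 3, w' (opp i b) = w (opp i a) := by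
      intro i a
      exact hit _ (fun b => hw'.1 _) (hi' i) (hw.1 _)
    choose π hπ using hex
    have hπi : ∀ i, Function.Injective (π i) := by
      intro i a b hab
      apply hi i
      simp only
      rw [← hπ i a, ← hπ i b, hab]
    refine ⟨autOf fun i => Equiv.ofBijective (π i) (Finite.injective_iff_bijective.1 (hπi i)), ?_⟩
    intro e
    obtain ⟨⟨i, a⟩, rfl⟩ := opp_surj e
    simp only
    rw [autOf_opp]
    exact hπ i a

/-- One copy of the triangle is `K_3`. -/
theorem triangles_one : Nonempty (triangles 1 ≃g (⊤ : SimpleGraph (Fin 3))) := by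
  refine ⟨⟨⟨fun p => p.2, fun a => (0, a), fun p => ?_, fun a => rfl⟩, ?_⟩⟩
  · obtain ⟨i, a⟩ := p
    simp only [Prod.mk.injEq, and_true]
    exact Subsingleton.elim _ _
  · rintro ⟨i, a⟩ ⟨j, b⟩
    show a ≠ b ↔ (i = j ∧ a ≠ b)
    rw [Subsingleton.elim i j]
    simp

/-- **There is a uniquely `{1,2,3}`-weight colourable graph with an edge**: the disjoint union of
any number `k ≥ 1` of triangles is one.  For `k = 1` this graph is `K_3`. -/
theorem result :
    (∀ k : ℕ, 1 ≤ k → (triangles k).edgeSet.Nonempty ∧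
      UniquelyWeightColourable (triangles k) ({1, 2, 3} : Set ℝ)) ∧
    Nonempty (triangles 1 ≃g (⊤ : SimpleGraph (Fin 3))) :=
  ⟨fun k hk => ⟨⟨_, (opp (⟨0, hk⟩ : Fin k) 0).2⟩, triangles_unique k⟩, triangles_one⟩

end Pool.Agent.Results.MP_9e9a14_co.Triangles
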